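import Pool.Agent.H52.FT.Targets

/-!
# Lower bound `n² - n^(1+o(1))` for the shortest universal supersequence: the reduction

Targets of the reduction to the weighted greedy lemma (MP_81fcf0_co).
-/

set_option autoImplicit false

namespace Pool.Agent.H53.SS

open Pool.Agent.H52.FT

/-- weighted greedy lemma with parameters: `H θ` letters with prices between `lo` and `hi`, all of
them light at the level `θ ≤ N`, give a non-subword of cost at most `θ + s` -/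
def WG (lo hi H s N : ℝ) : Prop :=
  ∀ (α : Type) [DecidableEq α] (Y : Finset α) (p : α → ℝ) (w : List α) (θ : ℝ),
    (∀ z ∈ Y, lo ≤ p z ∧ p z ≤ hi) → 1 ≤ θ → θ ≤ N → H * θ ≤ Y.card →
    (∀ z ∈ Y, p z * ((w.count z : ℝ) + 1) ≤ θ) →
    ∃ L : List α, Wd Y L ∧ ¬ L.Sublist w ∧ cost p L ≤ θ + s

/-- WGT: the weighted greedy lemma (the main theorem of the probabilistic part). -/
def T_WGT : Prop := ∀ ε : ℝ, 0 < ε → ∃ C : ℝ, 1 ≤ C ∧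
  ∀ (α : Type) [DecidableEq α] (Y : Finset α) (p : α → ℝ) (w : List α) (θ : ℝ),
    (∀ z ∈ Y, 1 ≤ p z ∧ p z ≤ 2) → 1 ≤ θ → C * θ ^ (1 + ε) ≤ Y.card →
    (∀ z ∈ Y, p z * ((w.count z : ℝ) + 1) ≤ θ) →
    ∃ L : List α, Wd Y L ∧ ¬ L.Sublist w ∧ cost p L ≤ θ + C * θ ^ ε

/-- WG9: the same with parameters and for prices between `1` and `9`. -/
def T_WG9 : Prop := ∀ ε : ℝ, 0 < ε → ∃ C : ℝ, 1 ≤ C ∧ ∀ N : ℝ, 1 ≤ N →
  WG 1 9 (C * N ^ ε) (C * N ^ ε) N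

/-- the bound for the length of `u` by the least cost of a non-subword, for alphabets with at most
`X` letters -/
def WF (α : Type) [DecidableEq α] (A H s e X : ℝ) : Prop :=
  ∀ (S : Finset α) (p : α → ℝ) (u : List α) (Θ : ℝ), (∀ z ∈ S, 1 ≤ p z ∧ p z ≤ 9) → 0 ≤ Θ →
    (S.card : ℝ) ≤ X → A * H * Θ ≤ S.card →
    (∀ L : List α, Wd S L → ¬ L.Sublist u → Θ ≤ cost p L) →
    Θ * ∑ z ∈ S, 1 / p z ≤ tot S u + (s + 1) * S.card + e * Θ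

/-- WFS: the induction step. -/
def T_WFS : Prop := ∀ (α : Type) [DecidableEq α] (A H s e X X' N : ℝ), 1 ≤ A → 1 ≤ H → 0 ≤ s →
  0 ≤ e → X' ≤ 39 * A * X → X' ≤ N → WG 1 9 H s N → WF α A H s e X →
  WF α (39 * A) H s (2 * e + 9 * (s + 1) * A * H) X'

/-- WFI: the iteration. -/
def T_WFI : Prop := ∀ (α : Type) [DecidableEq α] (A H s N : ℝ) (i : ℕ), 1 ≤ A → 1 ≤ H → 0 ≤ s →
  WG 1 9 H s N → A ^ i ≤ N → WF α (39 ^ i * A) H s (100 ^ i * ((s + 1) * A * H)) (A ^ i)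

/-- the induction hypothesis: the lower bound holds for all proper sub-alphabets -/
def IHE (α : Type) [DecidableEq α] (S : Finset α) (C ε : ℝ) : Prop :=
  ∀ T : Finset α, T ⊂ S → ∀ w : List α, Uni T w →
    (T.card : ℝ) ^ 2 - C * (T.card : ℝ) ^ (1 + ε) ≤ tot T w

/-- CNE: in a short universal word no letter occurs more than `2 n` times. -/
def T_CNE : Prop := ∀ (α : Type) [DecidableEq α] (S : Finset α) (w : List α) (C ε : ℝ),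
  0 ≤ C → 0 ≤ ε → IHE α S C ε → Uni S w →
  (tot S w : ℝ) ≤ (S.card : ℝ) ^ 2 - C * (S.card : ℝ) ^ (1 + ε) →
  ∀ z ∈ S, (w.count z : ℝ) ≤ 2 * S.card

/-- LOE: the cost of every non-subword of the prefix `u` of a short universal word is large. -/
def T_LOE : Prop := ∀ (α : Type) [DecidableEq α] (S : Finset α) (u b : List α) (C ε lam : ℝ)
  (κ : ℕ) (L : List α), 0 ≤ C → 0 < ε → ε ≤ 1 → IHE α S C ε → Uni S (u ++ b) →
  tot S u = κ * S.card →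
  (tot S (u ++ b) : ℝ) ≤ (S.card : ℝ) ^ 2 - C * (S.card : ℝ) ^ (1 + ε) →
  lam = C * (S.card : ℝ) ^ ε →
  16 * (κ : ℝ) ≤ ε * S.card → 16 * lam ≤ ε * S.card → Wd S L → ¬ L.Sublist u →
  (κ : ℝ) * S.card - (κ : ℝ) ^ 2 + (1 + ε / 2) * lam * κ - lam ^ 2 ≤
    cost (fun z => 2 * (S.card : ℝ) - 2 * κ - b.count z) L

/-- CVX: convexity. -/
def T_CVX : Prop := ∀ (α : Type) (S : Finset α) (raw : α → ℝ) (n pb : ℝ), 0 < n →
  7 * n / 8 ≤ pb → pb ≤ 9 * n / 8 → (∑ z ∈ S, raw z = S.card * pb) →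
  (∀ z ∈ S, -(n / 8) ≤ raw z) → S.card / pb ≤ ∑ z ∈ S, 1 / max (raw z) (n / 4)

/-- STE: the induction step of the lower bound. -/
def T_STE : Prop := ∀ (α : Type) [DecidableEq α] (A H s e X C ε n lam : ℝ) (S : Finset α)
  (κ : ℕ) (w : List α), WF α A H s e X → 1 ≤ A → 1 ≤ H → 0 ≤ s → 0 ≤ e → 0 < ε → ε ≤ 1 →
  IHE α S C ε → n = S.card → n ≤ X → lam = C * n ^ ε → 1 ≤ lam → 16 * lam ≤ ε * n →
  16 * (κ : ℝ) ≤ ε * n → 5 * A * H * κ ≤ n → 4 * lam ≤ ε * κ → 100 * (e + 1) < ε * lam →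
  20 * (s + 1) * n < ε * lam * κ → Uni S w → n ^ 2 - C * n ^ (1 + ε) ≤ tot S w

/-- NUE: choice of the parameters. -/
def T_NUE : Prop := ∀ ε C₁ : ℝ, 0 < ε → ε ≤ 1 / 4 → 1 ≤ C₁ → ∃ C : ℝ, 1 ≤ C ∧
  ∀ n : ℝ, 1 ≤ n → 160 * n ^ (3 / 2 : ℝ) ≤ C * n ^ (1 + ε) ∨
    ∃ (A H s e lam : ℝ) (i κ : ℕ), H = C₁ * n ^ (ε / 8) ∧ s = C₁ * n ^ (ε / 8) ∧
      lam = C * n ^ ε ∧ 1 ≤ A ∧ A ^ i = n ∧
      e = 100 ^ i * ((s + 1) * A * H) ∧ 1 ≤ lam ∧ 16 * lam ≤ ε * n ∧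
      16 * (κ : ℝ) ≤ ε * n ∧ 5 * (39 ^ i * A) * H * κ ≤ n ∧ 4 * lam ≤ ε * κ ∧
      100 * (e + 1) < ε * lam ∧ 20 * (s + 1) * n < ε * lam * κ

/-- FIE: the final lower bound. -/
def T_FIE : Prop := ∀ ε : ℝ, 0 < ε → ∃ C : ℝ, 0 < C ∧ ∀ (α : Type) [DecidableEq α]
  (S : Finset α) (w : List α), 1 ≤ S.card → Uni S w →
  (S.card : ℝ) ^ 2 - C * (S.card : ℝ) ^ (1 + ε) ≤ tot S w

end Pool.Agent.H53.SS
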