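import Pool.Agent.H53.SS.Targets

/-! CVX: convexity. -/

set_option autoImplicit false

namespace Pool.Agent.H53.SS

open Pool.Agent.H52.FT

theorem cvx_one (x n pb : ℝ) (hn : 0 < n) (h1 : 7 * n / 8 ≤ pb) (h2 : pb ≤ 9 * n / 8)
    (hx : -(n / 8) ≤ x) : (2 * pb - x) / pb ^ 2 ≤ 1 / max x (n / 4) := by
  have hpb : 0 < pb := by linarith
  have hm : 0 < max x (n / 4) := lt_max_of_lt_right (by linarith)
  rw [div_le_div_iff₀ (by positivity) hm]
  rcases le_total x (n / 4) with h | h
  · rw [max_eq_right h]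
    nlinarith [sq_nonneg (pb - 7 * n / 8), mul_pos hn hpb]
  · rw [max_eq_left h]
    nlinarith [sq_nonneg (x - pb)]

theorem pf_CVX : T_CVX := by
  intro α S raw n pb hn h1 h2 hsum hraw
  have hpb : 0 < pb := by linarith
  calc (S.card : ℝ) / pb = ∑ z ∈ S, (2 * pb - raw z) / pb ^ 2 := by
        rw [← Finset.sum_div, Finset.sum_sub_distrib, hsum, Finset.sum_const, nsmul_eq_mul]
        field_simp
        ring
    _ ≤ _ := Finset.sum_le_sum fun z hz => cvx_one _ n pb hn h1 h2 (hraw z hz)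

end Pool.Agent.H53.SS
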