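import Pool.Agent.H53.SS.Targets
import Pool.Agent.H56.FT.LOW

/-! LOE: the cost of the non-subwords of a prefix. -/

set_option autoImplicit false

namespace Pool.Agent.H53.SS

open Pool.Agent.H52.FT

/-- `n^(1+ε) - (n-v)^(1+ε) ≥ (1+ε) v (n-v)^ε` -/
theorem rpow_diff {n v ε : ℝ} (hn : 0 < n) (hv0 : 0 ≤ v) (hvn : v ≤ n) (hε : 0 < ε) :
    (1 + ε) * v * (n - v) ^ ε ≤ n ^ (1 + ε) - (n - v) ^ (1 + ε) := by
  rcases hvn.eq_or_lt with h | h
  · rw [h, sub_self, Real.zero_rpow hε.ne', Real.zero_rpow (by linarith)]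
    have : 0 ≤ n ^ (1 + ε) := Real.rpow_nonneg hn.le _
    linarith
  · have hx : 0 < n - v := by linarith
    have h1 : 1 + (1 + ε) * (v / (n - v)) ≤ (1 + v / (n - v)) ^ (1 + ε) := by
      refine one_add_mul_self_le_rpow_one_add ?_ (by linarith)
      have : 0 ≤ v / (n - v) := by positivity
      linarith
    have h2 : 1 + v / (n - v) = n / (n - v) := by field_simp; ring
    rw [h2, Real.div_rpow hn.le hx.le] at h1
    have h3 : 0 < (n - v) ^ (1 + ε) := Real.rpow_pos_of_pos hx _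
    rw [le_div_iff₀ h3] at h1
    have h4 : (n - v) ^ (1 + ε) = (n - v) * (n - v) ^ ε := by
      rw [Real.rpow_add hx, Real.rpow_one]
    have h5 : (1 + (1 + ε) * (v / (n - v))) * (n - v) ^ (1 + ε) =
        (n - v) ^ (1 + ε) + (1 + ε) * v * (n - v) ^ ε := by
      rw [h4]
      field_simp
    rw [h5] at h1
    linarith

theorem real_ineqE (n v κ lam ε D : ℝ) (hn : 0 < n) (hv0 : 0 ≤ v) (hvn : v ≤ n) (hκ0 : 0 ≤ κ)
    (hε : 0 < ε) (hε1 : ε ≤ 1) (hκ : 16 * κ ≤ ε * n) (hl0 : 0 ≤ lam) (hl : 16 * lam ≤ ε * n)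
    (hD0 : 0 ≤ D) (hD : (1 + ε) * v * (lam * (1 - v / n)) ≤ D) :
    (1 + ε / 2) * lam * κ - lam ^ 2 ≤ (v - κ) ^ 2 + D := by
  by_cases hv : v ≤ ε / 4 * n
  · have h1 : v / n ≤ ε / 4 := by
      rw [div_le_iff₀ hn]
      exact hv
    have h2 : (1 + ε / 2) ≤ (1 + ε) * (1 - v / n) := by nlinarith
    have h3 : (1 + ε / 2) * (v * lam) ≤ (1 + ε) * (1 - v / n) * (v * lam) :=
      mul_le_mul_of_nonneg_right h2 (by positivity)
    have h4 : (1 + ε / 2) * (v * lam) ≤ D := by nlinarith
    have h5 : (1 + ε / 2) ^ 2 ≤ 4 := by nlinarith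
    nlinarith [sq_nonneg (2 * (v - κ) + (1 + ε / 2) * lam), sq_nonneg lam]
  · push Not at hv
    have h5 : 3 / 16 * (ε * n) ≤ v - κ := by linarith
    have h6 : (3 / 16 * (ε * n)) ^ 2 ≤ (v - κ) ^ 2 := pow_le_pow_left₀ (by positivity) h5 2
    have h7 : lam * κ ≤ (ε * n / 16) * (ε * n / 16) :=
      mul_le_mul (by linarith) (by linarith) hκ0 (by positivity)
    have h8 : (1 + ε / 2) * (lam * κ) ≤ 2 * ((ε * n / 16) * (ε * n / 16)) :=
      mul_le_mul (by linarith) h7 (by positivity) (by norm_num)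
    nlinarith [sq_nonneg lam, sq_nonneg (ε * n)]

theorem pf_LOE : T_LOE := by
  intro α _ S u b C ε lam κ L hC hε hε1 hIH hU htu htot hlam hκ hl hL hnot
  set V : Finset α := L.toFinset with hV
  have hLne : L ≠ [] := ne_nil_of_not_sublist hnot
  have hVS : V ⊆ S := fun z hz => hL.2 z (List.mem_toFinset.mp hz)
  have hVcard : V.card = L.length := List.toFinset_card_of_nodup hL.1
  have hLpos : 1 ≤ L.length := List.length_pos_iff.mpr hLne
  have hle : L.length ≤ S.card := by rw [← hVcard]; exact Finset.card_le_card hVS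
  have hTS : S \ V ⊂ S := by
    refine Finset.ssubset_iff_subset_ne.mpr ⟨Finset.sdiff_subset, ?_⟩
    intro h0
    have h1 : (S \ V).card = S.card := by rw [h0]
    rw [Finset.card_sdiff_of_subset hVS] at h1
    omega
  have hUT : Uni (S \ V) b := by
    intro M hM
    have hLM : Wd S (L ++ M) := by
      refine ⟨?_, ?_⟩
      · rw [List.nodup_append]
        refine ⟨hL.1, hM.1, ?_⟩
        intro x hx y hy hxy
        subst hxy
        have := hM.2 x hy
        rw [Finset.mem_sdiff] at this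
        exact this.2 (List.mem_toFinset.mpr hx)
      · intro z hz
        rcases List.mem_append.mp hz with h | h
        · exact hL.2 z h
        · exact (Finset.mem_sdiff.mp (hM.2 z h)).1
    exact sublist_right_of_not_left hnot (hU _ hLM)
  have h1 := hIH (S \ V) hTS b hUT
  have hcardT : ((S \ V).card : ℝ) = S.card - L.length := by
    rw [Finset.card_sdiff_of_subset hVS, hVcard, Nat.cast_sub hle]
  rw [hcardT] at h1
  have h2 : tot S b = tot (S \ V) b + tot V b := tot_sdiff hVS b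
  have h3 : tot S (u ++ b) = tot S u + tot S b := tot_append S u b
  have h2' : (tot S b : ℝ) = tot (S \ V) b + tot V b := by exact_mod_cast h2
  have h3' : (tot S (u ++ b) : ℝ) = tot S u + tot S b := by exact_mod_cast h3
  have htu' : (tot S u : ℝ) = κ * S.card := by exact_mod_cast htu
  have hcost := Pool.Agent.H56.FT.LOW.cost_count (2 * (S.card : ℝ) - 2 * κ) b L hL.1
  rw [hcost, ← hV]
  set n : ℝ := (S.card : ℝ) with hnd
  set v : ℝ := (L.length : ℝ) with hvd
  have hn0 : (0 : ℝ) < n := by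
    have : 0 < S.card := by omega
    rw [hnd]
    exact_mod_cast this
  have hv1 : (1 : ℝ) ≤ v := by rw [hvd]; exact_mod_cast hLpos
  have hvn : v ≤ n := by rw [hvd, hnd]; exact_mod_cast hle
  have hl0 : 0 ≤ lam := by
    rw [hlam]; positivity
  have hd := rpow_diff hn0 (by linarith) hvn hε
  set D : ℝ := C * (n ^ (1 + ε) - (n - v) ^ (1 + ε)) with hDd
  have hD0 : 0 ≤ D := by
    refine mul_nonneg hC ?_
    have h5 : 0 ≤ (1 + ε) * v * (n - v) ^ ε := by
      have := Real.rpow_nonneg (by linarith : 0 ≤ n - v) ε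
      positivity
    linarith
  have hD : (1 + ε) * v * (lam * (1 - v / n)) ≤ D := by
    have h5 : n ^ ε * (1 - v / n) ≤ (n - v) ^ ε := by
      have h6 : (n - v) = n * (1 - v / n) := by field_simp
      have h7 : 0 ≤ 1 - v / n := by
        rw [sub_nonneg, div_le_one hn0]
        exact hvn
      have h8 : 1 - v / n ≤ 1 := by
        have : 0 ≤ v / n := by positivity
        linarith
      rw [h6, Real.mul_rpow hn0.le h7]
      refine mul_le_mul_of_nonneg_left ?_ (Real.rpow_nonneg hn0.le _)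
      rcases h7.eq_or_lt with h9 | h9
      · rw [← h9, Real.zero_rpow hε.ne']
      · calc 1 - v / n = (1 - v / n) ^ (1 : ℝ) := (Real.rpow_one _).symm
          _ ≤ (1 - v / n) ^ ε := Real.rpow_le_rpow_of_exponent_ge h9 h8 hε1
    have h6 : (1 + ε) * v * (n ^ ε * (1 - v / n)) ≤ (1 + ε) * v * (n - v) ^ ε :=
      mul_le_mul_of_nonneg_left h5 (by positivity)
    have h7 := mul_le_mul_of_nonneg_left (h6.trans hd) hC
    rw [hDd]
    calc (1 + ε) * v * (lam * (1 - v / n)) = C * ((1 + ε) * v * (n ^ ε * (1 - v / n))) := by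
          rw [hlam]; ring
      _ ≤ _ := h7
  have hR := real_ineqE n v κ lam ε D hn0 (by linarith) hvn (Nat.cast_nonneg _) hε hε1 hκ hl0 hl
    hD0 hD
  have hDe : D = C * n ^ (1 + ε) - C * (n - v) ^ (1 + ε) := by rw [hDd]; ring
  nlinarith

end Pool.Agent.H53.SS
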