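import Pool.Agent.H53.SS.Targets

/-! NUE: choice of the parameters. -/

set_option autoImplicit false

namespace Pool.Agent.H53.SS

open Pool.Agent.H52.FT

theorem pf_NUE : T_NUE := by
  intro ε C₁ hε hε4 hC₁
  obtain ⟨i, hi⟩ := exists_nat_gt (8 / ε)
  have hi0 : (0 : ℝ) < i := lt_trans (by positivity) hi
  have hiN : i ≠ 0 := by
    rintro rfl
    simp at hi0
  have hiε : (1 : ℝ) / i ≤ ε / 8 := by
    rw [div_le_div_iff₀ hi0 (by norm_num)]
    rw [div_lt_iff₀ hε] at hi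
    linarith
  -- the constants
  set B : ℝ := 39 ^ i * C₁ with hB
  have hB1 : 1 ≤ B := by
    have : (1 : ℝ) ≤ 39 ^ i := one_le_pow₀ (by norm_num)
    exact one_le_mul_of_one_le_of_one_le this hC₁
  set c : ℝ := ε / (80 * B) with hc
  have hc0 : 0 < c := by positivity
  set D : ℝ := 100 ^ i * (2 * C₁ ^ 2) with hD
  have hD1 : 1 ≤ D := by
    have h1 : (1 : ℝ) ≤ 100 ^ i := one_le_pow₀ (by norm_num)
    have h2 : 1 ≤ 2 * C₁ ^ 2 := by
      have h3 : 1 ≤ C₁ ^ 2 := one_le_pow₀ hC₁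
      linarith
    exact one_le_mul_of_one_le_of_one_le h1 h2
  set C : ℝ := 160 ^ 2 * (16 / (ε * c) + 16 / ε + 2 / c) + 200 * (D + 1) / ε +
    80 * C₁ / (ε * c) + 1 with hCd
  have hC1 : 1 ≤ C := by
    rw [hCd]
    have h1 : 0 ≤ (160 : ℝ) ^ 2 * (16 / (ε * c) + 16 / ε + 2 / c) := by positivity
    have h2 : 0 ≤ 200 * (D + 1) / ε := by positivity
    have h3 : 0 ≤ 80 * C₁ / (ε * c) := by positivity
    linarith
  have hCa : 160 ^ 2 * (16 / (ε * c)) ≤ C := by
    rw [hCd]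
    have h1 : 0 ≤ (160 : ℝ) ^ 2 * (16 / ε + 2 / c) := by positivity
    have h2 : 0 ≤ 200 * (D + 1) / ε := by positivity
    have h3 : 0 ≤ 80 * C₁ / (ε * c) := by positivity
    linarith
  have hCb : 160 ^ 2 * (16 / ε) ≤ C := by
    rw [hCd]
    have h1 : 0 ≤ (160 : ℝ) ^ 2 * (16 / (ε * c) + 2 / c) := by positivity
    have h2 : 0 ≤ 200 * (D + 1) / ε := by positivity
    have h3 : 0 ≤ 80 * C₁ / (ε * c) := by positivity
    linarith
  have hCc : 160 ^ 2 * (2 / c) ≤ C := by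
    rw [hCd]
    have h1 : 0 ≤ (160 : ℝ) ^ 2 * (16 / (ε * c) + 16 / ε) := by positivity
    have h2 : 0 ≤ 200 * (D + 1) / ε := by positivity
    have h3 : 0 ≤ 80 * C₁ / (ε * c) := by positivity
    linarith
  have hCd' : 200 * (D + 1) / ε < C := by
    rw [hCd]
    have h1 : 0 ≤ (160 : ℝ) ^ 2 * (16 / (ε * c) + 16 / ε + 2 / c) := by positivity
    have h3 : 0 ≤ 80 * C₁ / (ε * c) := by positivity
    linarith
  have hCe : 80 * C₁ / (ε * c) < C := by
    rw [hCd]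
    have h1 : 0 ≤ (160 : ℝ) ^ 2 * (16 / (ε * c) + 16 / ε + 2 / c) := by positivity
    have h2 : 0 ≤ 200 * (D + 1) / ε := by positivity
    linarith
  refine ⟨C, hC1, ?_⟩
  intro n hn
  by_cases hcase : 160 * n ^ (3 / 2 : ℝ) ≤ C * n ^ (1 + ε)
  · exact Or.inl hcase
  push Not at hcase
  right
  have hn0 : 0 < n := by linarith
  -- large `n`
  have hbig : C < 160 * n ^ (1 / 2 - ε) := by
    have h1 : n ^ (3 / 2 : ℝ) = n ^ (1 + ε) * n ^ (1 / 2 - ε) := by
      rw [← Real.rpow_add hn0]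
      congr 1
      ring
    rw [h1] at hcase
    have h2 : 0 < n ^ (1 + ε) := Real.rpow_pos_of_pos hn0 _
    have h3 : C * n ^ (1 + ε) < (160 * n ^ (1 / 2 - ε)) * n ^ (1 + ε) := by linarith
    exact lt_of_mul_lt_mul_right h3 h2.le
  have hbig2 : C ^ 2 ≤ 160 ^ 2 * n ^ (1 - 5 / 4 * ε) := by
    have h1 : C ^ 2 ≤ (160 * n ^ (1 / 2 - ε)) ^ 2 := pow_le_pow_left₀ (by linarith) hbig.le 2
    have h2 : (n ^ (1 / 2 - ε)) ^ 2 = n ^ (1 - 2 * ε) := by
      rw [← Real.rpow_natCast, ← Real.rpow_mul hn0.le]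
      congr 1
      push_cast
      ring
    have h3 : n ^ (1 - 2 * ε) ≤ n ^ (1 - 5 / 4 * ε) :=
      Real.rpow_le_rpow_of_exponent_le hn (by linarith)
    rw [mul_pow, h2] at h1
    exact h1.trans (mul_le_mul_of_nonneg_left h3 (by norm_num))
  have hkey : ∀ t : ℝ, 0 ≤ t → 160 ^ 2 * t ≤ C → t * C ≤ n ^ (1 - 5 / 4 * ε) := by
    intro t ht h1
    have h2 : 160 ^ 2 * (t * C) ≤ 160 ^ 2 * n ^ (1 - 5 / 4 * ε) := by
      calc 160 ^ 2 * (t * C) = (160 ^ 2 * t) * C := by ring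
        _ ≤ C * C := mul_le_mul_of_nonneg_right h1 (by linarith)
        _ = C ^ 2 := by ring
        _ ≤ _ := hbig2
    linarith
  have e1 : n ^ ε * n ^ (1 - 5 / 4 * ε) = n ^ (1 - ε / 4) := by
    rw [← Real.rpow_add hn0]; congr 1; ring
  have e2 : n ^ (1 - ε / 4) ≤ n := by
    calc n ^ (1 - ε / 4) ≤ n ^ (1 : ℝ) := Real.rpow_le_rpow_of_exponent_le hn (by linarith)
      _ = n := Real.rpow_one n
  have hnε : 1 ≤ n ^ ε := Real.one_le_rpow hn hε.le
  set A : ℝ := n ^ (1 / (i : ℝ)) with hA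
  set H : ℝ := C₁ * n ^ (ε / 8) with hH
  have hn8 : 1 ≤ n ^ (ε / 8) := Real.one_le_rpow hn (by positivity)
  have hA1 : 1 ≤ A := Real.one_le_rpow hn (by positivity)
  have hH1 : 1 ≤ H := one_le_mul_of_one_le_of_one_le hC₁ hn8
  have hA8 : A ≤ n ^ (ε / 8) := Real.rpow_le_rpow_of_exponent_le hn hiε
  have hAi : A ^ i = n := by
    rw [hA, ← Real.rpow_natCast, ← Real.rpow_mul hn0.le, one_div,
      inv_mul_cancel₀ (by positivity), Real.rpow_one]
  have e3 : n ^ (ε / 8) * n ^ (ε / 8) = n ^ (ε / 4) := by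
    rw [← Real.rpow_add hn0]; congr 1; ring
  have hAH : 39 ^ i * A * H ≤ B * n ^ (ε / 4) := by
    rw [hB, hH, ← e3]
    have h1 : A * n ^ (ε / 8) ≤ n ^ (ε / 8) * n ^ (ε / 8) :=
      mul_le_mul_of_nonneg_right hA8 (by linarith)
    calc 39 ^ i * A * (C₁ * n ^ (ε / 8)) = 39 ^ i * C₁ * (A * n ^ (ε / 8)) := by ring
      _ ≤ 39 ^ i * C₁ * (n ^ (ε / 8) * n ^ (ε / 8)) :=
          mul_le_mul_of_nonneg_left h1 (by positivity)
  have hAH0 : 1 ≤ 39 ^ i * A * H := by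
    have h1 : (1 : ℝ) ≤ 39 ^ i := one_le_pow₀ (by norm_num)
    have h2 : 1 ≤ 39 ^ i * A := one_le_mul_of_one_le_of_one_le h1 hA1
    exact one_le_mul_of_one_le_of_one_le h2 hH1
  -- `κ`
  set y : ℝ := ε * n / (80 * (39 ^ i * A * H)) with hy
  have hy0 : 0 ≤ y := by positivity
  set κ : ℕ := ⌊y⌋₊ with hκ
  have hκy : (κ : ℝ) ≤ y := Nat.floor_le hy0
  have hκy2 : y < κ + 1 := Nat.lt_floor_add_one y
  have hyc : c * n ^ (1 - ε / 4) ≤ y := by
    rw [hy, le_div_iff₀ (by positivity), hc]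
    have e4 : n ^ (1 - ε / 4) * n ^ (ε / 4) = n := by
      rw [← Real.rpow_add hn0]
      have : 1 - ε / 4 + ε / 4 = 1 := by ring
      rw [this, Real.rpow_one]
    have h1 : n ^ (1 - ε / 4) * (39 ^ i * A * H) ≤ B * n := by
      calc n ^ (1 - ε / 4) * (39 ^ i * A * H) ≤ n ^ (1 - ε / 4) * (B * n ^ (ε / 4)) :=
            mul_le_mul_of_nonneg_left hAH (Real.rpow_nonneg hn0.le _)
        _ = B * (n ^ (1 - ε / 4) * n ^ (ε / 4)) := by ring
        _ = B * n := by rw [e4]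
    calc ε / (80 * B) * n ^ (1 - ε / 4) * (80 * (39 ^ i * A * H))
        = ε / B * (n ^ (1 - ε / 4) * (39 ^ i * A * H)) := by field_simp
      _ ≤ ε / B * (B * n) := mul_le_mul_of_nonneg_left h1 (by positivity)
      _ = ε * n := by field_simp
  have h2y : 2 ≤ c * n ^ (1 - ε / 4) := by
    have h1 := hkey (2 / c) (by positivity) hCc
    have h2 : 2 / c ≤ n ^ (1 - ε / 4) := by
      calc 2 / c ≤ 2 / c * C := by
            have : 0 < 2 / c := by positivity
            exact le_mul_of_one_le_right this.le hC1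
        _ ≤ n ^ (1 - 5 / 4 * ε) := h1
        _ ≤ n ^ (1 - ε / 4) := Real.rpow_le_rpow_of_exponent_le hn (by linarith)
    rw [div_le_iff₀ hc0] at h2
    linarith
  have hκl : c / 2 * n ^ (1 - ε / 4) ≤ κ := by linarith
  have hlam : ∀ t : ℝ, 0 ≤ t → 160 ^ 2 * t ≤ C → t * (C * n ^ ε) ≤ n ^ (1 - ε / 4) := by
    intro t ht h1
    have h2 := mul_le_mul_of_nonneg_left (hkey t ht h1) (by linarith : 0 ≤ n ^ ε)
    rw [e1] at h2
    linarith
  refine ⟨A, H, H, 100 ^ i * ((H + 1) * A * H), C * n ^ ε, i, κ, rfl, rfl, rfl, hA1, hAi, rfl,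
    one_le_mul_of_one_le_of_one_le hC1 hnε, ?_, ?_, ?_, ?_, ?_, ?_⟩
  · have h1 := hlam (16 / ε) (by positivity) hCb
    have h2 : 16 / ε * (C * n ^ ε) ≤ n := h1.trans e2
    rw [div_mul_eq_mul_div, div_le_iff₀ hε] at h2
    linarith
  · have h1 : y ≤ ε * n / 80 := by
      rw [hy]
      refine div_le_div_of_nonneg_left (by positivity) (by norm_num) ?_
      linarith
    have h2 : 0 ≤ ε * n := by positivity
    linarith
  · have h1 : (39 ^ i * A * H) * y = ε * n / 80 := by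
      rw [hy]
      field_simp
    have h2 : (39 ^ i * A * H) * κ ≤ (39 ^ i * A * H) * y :=
      mul_le_mul_of_nonneg_left hκy (by linarith)
    have h3 : ε * n ≤ n := mul_le_of_le_one_left hn0.le (by linarith)
    calc 5 * (39 ^ i * A) * H * κ = 5 * ((39 ^ i * A * H) * κ) := by ring
      _ ≤ n := by linarith
  · have h1 := hlam (16 / (ε * c)) (by positivity) hCa
    rw [div_mul_eq_mul_div, div_le_iff₀ (by positivity)] at h1
    have h2 : ε * (c / 2 * n ^ (1 - ε / 4)) ≤ ε * κ := mul_le_mul_of_nonneg_left hκl hε.le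
    have h3 : ε * (c / 2 * n ^ (1 - ε / 4)) = n ^ (1 - ε / 4) * (ε * c) / 2 := by ring
    have h4 : 0 ≤ C * n ^ ε := by positivity
    rw [h3] at h2
    linarith
  · -- `e`
    have h1 : (H + 1) * A * H ≤ 2 * C₁ ^ 2 * n ^ ε := by
      have h2 : H + 1 ≤ 2 * H := by linarith
      have h3 : (H + 1) * A * H ≤ 2 * H * n ^ (ε / 8) * H := by
        have h4 : (H + 1) * A ≤ 2 * H * n ^ (ε / 8) :=
          mul_le_mul h2 hA8 (by linarith) (by positivity)
        exact mul_le_mul_of_nonneg_right h4 (by linarith)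
      have h5 : 2 * H * n ^ (ε / 8) * H = 2 * C₁ ^ 2 * (n ^ (ε / 4) * n ^ (ε / 8)) := by
        rw [hH, ← e3]
        ring
      have h6 : n ^ (ε / 4) * n ^ (ε / 8) ≤ n ^ ε := by
        rw [← Real.rpow_add hn0]
        exact Real.rpow_le_rpow_of_exponent_le hn (by linarith)
      rw [h5] at h3
      exact h3.trans (mul_le_mul_of_nonneg_left h6 (by positivity))
    have h2 : 100 ^ i * ((H + 1) * A * H) ≤ D * n ^ ε := by
      rw [hD]
      calc (100 : ℝ) ^ i * ((H + 1) * A * H) ≤ 100 ^ i * (2 * C₁ ^ 2 * n ^ ε) :=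
            mul_le_mul_of_nonneg_left h1 (by positivity)
        _ = _ := by ring
    have h3 : 100 * (100 ^ i * ((H + 1) * A * H) + 1) ≤ 100 * (D + 1) * n ^ ε := by
      have h3' : 100 * (D + 1) * n ^ ε = 100 * (D * n ^ ε) + 100 * n ^ ε := by ring
      linarith
    have h4 : 200 * (D + 1) < C * ε := by
      rw [div_lt_iff₀ hε] at hCd'
      exact hCd'
    have h5 : 100 * (D + 1) * n ^ ε < ε * (C * n ^ ε) := by
      have h6 : 100 * (D + 1) < ε * C := by
        have : 0 ≤ D := by linarith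
        linarith
      calc 100 * (D + 1) * n ^ ε < ε * C * n ^ ε :=
            mul_lt_mul_of_pos_right h6 (by linarith)
        _ = _ := by ring
    linarith
  · have h1 : 20 * (H + 1) * n ≤ 40 * C₁ * (n ^ (ε / 8) * n) := by
      have h2 : H + 1 ≤ 2 * H := by linarith
      calc 20 * (H + 1) * n ≤ 20 * (2 * H) * n := by
            refine mul_le_mul_of_nonneg_right ?_ hn0.le
            linarith
        _ = _ := by rw [hH]; ring
    have h3 : n ^ (ε / 8) * n ≤ n ^ (1 - ε / 4) * n ^ ε := by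
      have e5 : n ^ (ε / 8) * n = n ^ (ε / 8 + 1) := by
        rw [Real.rpow_add hn0, Real.rpow_one]
      rw [e5, ← Real.rpow_add hn0]
      exact Real.rpow_le_rpow_of_exponent_le hn (by linarith)
    have h4 : 80 * C₁ < C * (ε * c) := by
      rw [div_lt_iff₀ (by positivity)] at hCe
      exact hCe
    have h5 : 0 < n ^ (1 - ε / 4) * n ^ ε := by positivity
    have h6 : 40 * C₁ * (n ^ (ε / 8) * n) ≤ 40 * C₁ * (n ^ (1 - ε / 4) * n ^ ε) :=
      mul_le_mul_of_nonneg_left h3 (by positivity)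
    have h7 : 40 * C₁ * (n ^ (1 - ε / 4) * n ^ ε) <
        C * (ε * c) / 2 * (n ^ (1 - ε / 4) * n ^ ε) :=
      mul_lt_mul_of_pos_right (by linarith) h5
    have h8 : C * (ε * c) / 2 * (n ^ (1 - ε / 4) * n ^ ε) =
        ε * (C * n ^ ε) * (c / 2 * n ^ (1 - ε / 4)) := by ring
    have h9 : ε * (C * n ^ ε) * (c / 2 * n ^ (1 - ε / 4)) ≤ ε * (C * n ^ ε) * κ :=
      mul_le_mul_of_nonneg_left hκl (by positivity)
    linarith

end Pool.Agent.H53.SS
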