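import Pool.Agent.H53.SS.Targets

/-! WG9: from prices between 1 and 2 to prices between 1 and 9. -/

set_option autoImplicit false

namespace Pool.Agent.H53.SS

open Pool.Agent.H52.FT

theorem cost_smul {α : Type} (c : ℝ) (p : α → ℝ) (L : List α) :
    cost (fun z => c * p z) L = c * cost p L := by
  unfold cost
  induction L with
  | nil => simp
  | cons a L ih =>
    simp only [List.map_cons, List.sum_cons] at ih ⊢
    rw [ih]
    ring

theorem pf_WG9 (h : T_WGT) : T_WG9 := by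
  intro ε hε
  obtain ⟨C, hC1, hC⟩ := h ε hε
  refine ⟨8 * C, by linarith, ?_⟩
  intro N hN α _ Y p w θ hp hθ1 hθN hY hlight
  have hNε : 1 ≤ N ^ ε := Real.one_le_rpow hN hε.le
  have hθε : θ ^ ε ≤ N ^ ε := Real.rpow_le_rpow (by linarith) hθN hε.le
  have hθε1 : 1 ≤ θ ^ ε := Real.one_le_rpow hθ1 hε.le
  -- the classes
  let I : ℕ → Finset α := fun i => Y.filter (fun z => (2 : ℝ) ^ i ≤ p z ∧ p z < 2 ^ (i + 1))
  have hcov : Y ⊆ (Finset.range 4).biUnion I := by
    intro z hz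
    obtain ⟨h1, h2⟩ := hp z hz
    rw [Finset.mem_biUnion]
    have hz' : ∀ i : ℕ, (2 : ℝ) ^ i ≤ p z → p z < 2 ^ (i + 1) → z ∈ I i := by
      intro i h3 h4
      exact Finset.mem_filter.2 ⟨hz, h3, h4⟩
    by_cases c1 : p z < 2
    · exact ⟨0, by simp, hz' 0 (by simpa using h1) (by simpa using c1)⟩
    by_cases c2 : p z < 4
    · exact ⟨1, by simp, hz' 1 (by push Not at c1; simpa using c1) (by norm_num; exact c2)⟩
    by_cases c3 : p z < 8
    · exact ⟨2, by simp, hz' 2 (by push Not at c2; norm_num; exact c2) (by norm_num; exact c3)⟩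
    · exact ⟨3, by simp, hz' 3 (by push Not at c3; norm_num; exact c3) (by norm_num; linarith)⟩
  have hcard : Y.card ≤ ∑ i ∈ Finset.range 4, (I i).card :=
    (Finset.card_le_card hcov).trans Finset.card_biUnion_le
  have hex : ∃ i ∈ Finset.range 4, (Y.card : ℝ) ≤ 4 * (I i).card := by
    by_contra hcon
    push Not at hcon
    have h1 : (∑ i ∈ Finset.range 4, ((I i).card : ℝ)) < ∑ i ∈ Finset.range 4, (Y.card : ℝ) / 4 := by
      refine Finset.sum_lt_sum_of_nonempty (by simp) fun i hi => ?_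
      have := hcon i hi
      linarith
    have h2 : (Y.card : ℝ) ≤ ∑ i ∈ Finset.range 4, ((I i).card : ℝ) := by exact_mod_cast hcard
    simp only [Finset.sum_const, Finset.card_range, nsmul_eq_mul] at h1
    push_cast at h1
    linarith
  obtain ⟨i, hi, hIi⟩ := hex
  have hi4 : i < 4 := Finset.mem_range.1 hi
  have h2i : (1 : ℝ) ≤ 2 ^ i := one_le_pow₀ (by norm_num)
  have h2i8 : (2 : ℝ) ^ i ≤ 8 := by
    have : (2 : ℝ) ^ i ≤ 2 ^ 3 := pow_le_pow_right₀ (by norm_num) (by omega)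
    linarith [this, (by norm_num : (2 : ℝ) ^ 3 = 8)]
  have hYpos : (0 : ℝ) < Y.card := by
    have : 0 < 8 * C * N ^ ε * θ := by positivity
    linarith
  have hIpos : (0 : ℝ) < (I i).card := by linarith
  obtain ⟨z0, hz0⟩ : (I i).Nonempty := by
    rw [← Finset.card_pos]
    exact_mod_cast hIpos
  have hθi : 1 ≤ θ / 2 ^ i := by
    rw [le_div_iff₀ (by linarith)]
    obtain ⟨h1, h2, -⟩ := Finset.mem_filter.1 hz0
    have h3 := hlight z0 h1
    have h4 : p z0 * 1 ≤ p z0 * ((w.count z0 : ℝ) + 1) := by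
      refine mul_le_mul_of_nonneg_left ?_ (by linarith)
      have : (0 : ℝ) ≤ w.count z0 := Nat.cast_nonneg _
      linarith
    linarith
  have hθi2 : θ / 2 ^ i ≤ θ := div_le_self (by linarith) h2i
  obtain ⟨L, hL1, hL2, hL3⟩ := hC α (I i) (fun z => (2 ^ i)⁻¹ * p z) w (θ / 2 ^ i)
    (by
      intro z hz
      obtain ⟨-, h1, h2⟩ := Finset.mem_filter.1 hz
      rw [pow_succ] at h2
      constructor
      · rw [inv_mul_eq_div, le_div_iff₀ (by linarith)]
        linarith
      · rw [inv_mul_eq_div, div_le_iff₀ (by linarith)]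
        linarith)
    hθi
    (by
      have h1 : (θ / 2 ^ i) ^ (1 + ε) ≤ θ ^ (1 + ε) :=
        Real.rpow_le_rpow (by linarith) hθi2 (by linarith)
      have h2 : θ ^ (1 + ε) = θ * θ ^ ε := by
        rw [Real.rpow_add (by linarith), Real.rpow_one]
      have h3 : θ * θ ^ ε ≤ θ * N ^ ε := mul_le_mul_of_nonneg_left hθε (by linarith)
      calc C * (θ / 2 ^ i) ^ (1 + ε) ≤ C * (θ * N ^ ε) := by
            refine mul_le_mul_of_nonneg_left ?_ (by linarith)
            linarith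
        _ ≤ (I i).card := by nlinarith)
    (by
      intro z hz
      have h1 := hlight z (Finset.mem_filter.1 hz).1
      rw [le_div_iff₀ (by linarith)]
      calc (2 ^ i)⁻¹ * p z * ((w.count z : ℝ) + 1) * 2 ^ i
          = p z * ((w.count z : ℝ) + 1) * ((2 ^ i)⁻¹ * 2 ^ i) := by ring
        _ = p z * ((w.count z : ℝ) + 1) := by
            rw [inv_mul_cancel₀ (by positivity), mul_one]
        _ ≤ θ := h1)
  refine ⟨L, ⟨hL1.1, fun z hz => (Finset.mem_filter.1 (hL1.2 z hz)).1⟩, hL2, ?_⟩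
  rw [cost_smul, inv_mul_eq_div, div_le_iff₀ (by linarith)] at hL3
  have h1 : (θ / 2 ^ i + C * (θ / 2 ^ i) ^ ε) * 2 ^ i = θ + C * (θ / 2 ^ i) ^ ε * 2 ^ i := by
    field_simp
  rw [h1] at hL3
  have h2 : (θ / 2 ^ i) ^ ε ≤ N ^ ε :=
    (Real.rpow_le_rpow (by linarith) hθi2 hε.le).trans hθε
  have h3 : 0 ≤ (θ / 2 ^ i) ^ ε := Real.rpow_nonneg (by linarith) _
  have h4 : C * (θ / 2 ^ i) ^ ε * 2 ^ i ≤ C * N ^ ε * 8 :=
    mul_le_mul (mul_le_mul_of_nonneg_left h2 (by linarith)) h2i8 (by positivity) (by positivity)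
  linarith

end Pool.Agent.H53.SS
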