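import Pool.Agent.H53.SS.Targets
import Pool.Agent.H53.SS.WG9
import Pool.Agent.H33.FT.PRE
import Pool.Agent.H46.FT.STEP

/-! STE: the induction step of the lower bound. -/

set_option autoImplicit false

namespace Pool.Agent.H53.SS

open Pool.Agent.H52.FT

/-- the final real inequality -/
theorem ste_arith (n κ lam lam0 s e ε Θ : ℝ) (hn : 1 ≤ n) (hκ0 : 0 < κ) (hlam : 0 ≤ lam)
    (hs : 0 ≤ s) (he : 0 ≤ e) (hε : 0 < ε) (hε1 : ε ≤ 1)
    (hl : 16 * lam ≤ ε * n) (hκ : 16 * κ ≤ ε * n) (hl1 : lam ≤ lam0) (hl2 : lam0 ≤ lam + 1 / n)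
    (h4 : 4 * lam ≤ ε * κ) (h48 : 100 * (e + 1) < ε * lam) (h10 : 20 * (s + 1) * n < ε * lam * κ)
    (hΘ : Θ = κ * n - κ ^ 2 + (1 + ε / 2) * lam * κ - lam ^ 2)
    (hmain : Θ * (n / (n - κ + lam0)) ≤ κ * n + (s + 1) * n + e * (5 * κ)) : False := by
  have hn0 : 0 < n := by linarith
  have hinv : 1 / n ≤ 1 := by rw [div_le_one hn0]; exact hn
  have hinvn : 1 / n ≤ n := hinv.trans hn
  have hεn : ε * n ≤ n := mul_le_of_le_one_left hn0.le hε1
  have hκn : κ ≤ n / 16 := by linarith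
  have hln : lam ≤ n / 16 := by linarith
  have hpb0 : 0 < n - κ + lam0 := by linarith
  -- `κ ≥ 2`, since `ε lam κ > 10 n` and `lam ≤ n / 16`
  have hpb : n - κ + lam0 ≤ 9 / 8 * n + 1 := by linarith
  have h1 : Θ ≤ (n - κ + lam0) * (κ + (s + 1)) + (n - κ + lam0) / n * (5 * (e * κ)) := by
    have h2 : Θ * (n / (n - κ + lam0)) * ((n - κ + lam0) / n) = Θ := by
      field_simp
    have h3 := mul_le_mul_of_nonneg_right hmain (by positivity : 0 ≤ (n - κ + lam0) / n)
    rw [h2] at h3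
    have h5 : (κ * n + (s + 1) * n + e * (5 * κ)) * ((n - κ + lam0) / n) =
        (n - κ + lam0) * (κ + (s + 1)) + (n - κ + lam0) / n * (5 * (e * κ)) := by
      field_simp
    rw [h5] at h3
    exact h3
  have h6 : (n - κ + lam0) / n ≤ 9 / 8 + 1 := by
    rw [div_le_iff₀ hn0]
    linarith
  have h7 : (n - κ + lam0) / n * (5 * (e * κ)) ≤ (9 / 8 + 1) * (5 * (e * κ)) :=
    mul_le_mul_of_nonneg_right h6 (by positivity)
  have h8 : (n - κ + lam0) * κ ≤ n * κ - κ ^ 2 + lam * κ + κ := by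
    have h9 : lam0 * κ ≤ (lam + 1) * κ := mul_le_mul_of_nonneg_right (by linarith) hκ0.le
    have h10' : (n - κ + lam0) * κ = n * κ - κ ^ 2 + lam0 * κ := by ring
    have h11' : (lam + 1) * κ = lam * κ + κ := by ring
    linarith
  have h9 : (n - κ + lam0) * (s + 1) ≤ (9 / 8 * n + 1) * (s + 1) :=
    mul_le_mul_of_nonneg_right hpb (by linarith)
  have h11 : lam ^ 2 ≤ ε / 4 * (lam * κ) := by
    have h12' := mul_le_mul_of_nonneg_left h4 hlam
    have h13' : lam * (4 * lam) = 4 * lam ^ 2 := by ring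
    have h14' : lam * (ε * κ) = 4 * (ε / 4 * (lam * κ)) := by ring
    linarith
  have h12 : (ε / 4) * (lam * κ) ≤ κ + (9 / 8 * n + 1) * (s + 1) + (17 / 8) * (5 * (e * κ)) := by
    have h12' : (n - κ + lam0) * (κ + (s + 1)) = (n - κ + lam0) * κ + (n - κ + lam0) * (s + 1) := by
      ring
    have h13' : (1 + ε / 2) * lam * κ = lam * κ + 2 * (ε / 4 * (lam * κ)) := by ring
    have h14' : n * κ = κ * n := by ring
    linarith
  have h13 : 100 * (e + 1) * κ < ε * lam * κ := mul_lt_mul_of_pos_right h48 hκ0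
  have h14 : (9 / 8 * n + 1) * (s + 1) ≤ 17 / 8 * ((s + 1) * n) := by
    have h15' : (9 / 8 * n + 1) * (s + 1) ≤ (17 / 8 * n) * (s + 1) :=
      mul_le_mul_of_nonneg_right (by linarith) (by linarith)
    linarith
  have h15 : 0 ≤ e * κ := by positivity
  have h16 : ε / 4 * (lam * κ) = 1 / 4 * (ε * lam * κ) := by ring
  have h17 : 100 * (e + 1) * κ = 100 * (e * κ) + 100 * κ := by ring
  have h18 : 20 * (s + 1) * n = 20 * ((s + 1) * n) := by ring
  rw [h16] at h12
  rw [h17] at h13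
  rw [h18] at h10
  linarith

theorem pf_STE (h3 : T_PRE) (h4 : T_CNE) (h5 : T_LOE) (h6 : T_CVX) : T_STE := by
  intro α _ A H s e X C ε n lam S κ w hWF hA hH hs he hε hε1 hIH hn hnX hlam hlam1 hl hκ h5A h4l
    h48 h10 hw
  have hlam0 : 0 < lam := by linarith
  have hn0 : 0 < n := by
    by_contra h
    push Not at h
    have : ε * n ≤ 0 := mul_nonpos_of_nonneg_of_nonpos hε.le h
    linarith
  have hεn : ε * n ≤ n := mul_le_of_le_one_left hn0.le hε1
  have hn16 : 16 ≤ n := by linarith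
  have hnε : 0 < n ^ ε := Real.rpow_pos_of_pos hn0 _
  have hC : 0 < C := by
    by_contra hcon
    push Not at hcon
    have : C * n ^ ε ≤ 0 := mul_nonpos_of_nonpos_of_nonneg hcon hnε.le
    linarith
  have hCn : C * n ^ (1 + ε) = n * lam := by
    rw [Real.rpow_add hn0, Real.rpow_one, hlam]
    ring
  by_contra hcon
  push Not at hcon
  rw [hCn] at hcon
  have hκ0 : (0 : ℝ) ≤ κ := Nat.cast_nonneg _
  have hκpos : (0 : ℝ) < κ := by
    rcases hκ0.eq_or_lt with h | h
    · rw [← h] at h4l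
      linarith
    · exact h
  have hln : lam ≤ n / 16 := by linarith
  have hκn : (κ : ℝ) ≤ n / 16 := by linarith
  -- the number `M`
  set x := n ^ 2 - n * lam with hx
  have hx0 : 0 < x := lt_of_le_of_lt (Nat.cast_nonneg _) hcon
  have hc1 : x ≤ ⌈x⌉₊ := Nat.le_ceil x
  have hc2 : (⌈x⌉₊ : ℝ) < x + 1 := Nat.ceil_lt_add_one hx0.le
  have hc3 : 1 ≤ ⌈x⌉₊ := Nat.one_le_ceil_iff.2 hx0
  obtain ⟨M, hM⟩ := Nat.exists_eq_add_of_le hc3
  have hMr : (⌈x⌉₊ : ℝ) = 1 + M := by rw [hM]; push_cast; ring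
  have hM1 : x - 1 ≤ M := by linarith
  have hM2 : (M : ℝ) < x := by linarith
  have hwM : tot S w ≤ M := by
    have h7 : (tot S w : ℝ) < ⌈x⌉₊ := lt_of_lt_of_le hcon hc1
    have h8 : tot S w < ⌈x⌉₊ := by exact_mod_cast h7
    omega
  set lam0 := (n ^ 2 - M) / n with hlam0def
  have hl1 : lam ≤ lam0 := by
    rw [hlam0def, le_div_iff₀ hn0]
    linarith
  have hl2 : lam0 ≤ lam + 1 / n := by
    rw [hlam0def, div_le_iff₀ hn0]
    have h7 : (lam + 1 / n) * n = lam * n + 1 := by field_simp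
    rw [h7]
    linarith
  have hnl0 : n * lam0 = n ^ 2 - M := by rw [hlam0def]; field_simp
  have hSne : S.Nonempty := by
    rw [← Finset.card_pos]
    have : (0 : ℝ) < S.card := by rw [← hn]; exact hn0
    exact_mod_cast this
  have hκM : κ * S.card ≤ M := by
    have h7 : (κ : ℝ) * S.card ≤ M := by
      rw [← hn]
      have h8 : (κ : ℝ) * n ≤ n / 16 * n := mul_le_mul_of_nonneg_right hκn hn0.le
      have h9 : n * lam ≤ n * (n / 16) := mul_le_mul_of_nonneg_left hln hn0.le
      have h10' : 16 * n ≤ n * n := mul_le_mul_of_nonneg_right hn16 hn0.le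
      have h11' : x = n * n - n * lam := by rw [hx]; ring
      have h12' : n / 16 * n = n * n / 16 := by ring
      have h13' : n * (n / 16) = n * n / 16 := by ring
      linarith
    exact_mod_cast h7
  obtain ⟨u, b, hub, htot, htu⟩ := h3 α S w M (κ * S.card) hSne hw hwM hκM
  have htotr : (tot S (u ++ b) : ℝ) ≤ (S.card : ℝ) ^ 2 - C * (S.card : ℝ) ^ (1 + ε) := by
    rw [← hn, hCn, htot]
    exact hM2.le
  have hcnt := h4 α S (u ++ b) C ε hC.le hε.le hIH hub htotr
  have hcb : ∀ z ∈ S, (b.count z : ℝ) ≤ 2 * n := by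
    intro z hz
    have h7 : (b.count z : ℝ) ≤ (u ++ b).count z := by
      rw [List.count_append]
      push_cast
      have : (0 : ℝ) ≤ u.count z := Nat.cast_nonneg _
      linarith
    have h8 := hcnt z hz
    rw [← hn] at h8
    exact h7.trans h8
  have htb : (tot S b : ℝ) = M - κ * n := by
    have h7 : (tot S (u ++ b) : ℝ) = tot S u + tot S b := by rw [tot_append]; push_cast; ring
    rw [htot, htu] at h7
    push_cast at h7
    rw [hn]
    linarith
  have htur : (tot S u : ℝ) = κ * n := by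
    rw [htu, hn]
    push_cast
    ring
  set raw : α → ℝ := fun z => 2 * (S.card : ℝ) - 2 * κ - b.count z with hraw
  have hrawn : ∀ z, raw z = 2 * n - 2 * κ - b.count z := fun z => by rw [hraw, hn]
  have hsum : ∑ z ∈ S, raw z = S.card * (n - κ + lam0) := by
    have h7 : ∑ z ∈ S, raw z = S.card * (2 * n - 2 * κ) - tot S b := by
      have h8 : ∑ z ∈ S, raw z = ∑ z ∈ S, ((2 * n - 2 * κ) - (b.count z : ℝ)) :=
        Finset.sum_congr rfl fun z _ => hrawn z
      rw [h8, Finset.sum_sub_distrib, Finset.sum_const, nsmul_eq_mul]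
      unfold tot
      push_cast
      ring
    rw [h7, htb, ← hn]
    linear_combination -hnl0
  have hinv : 1 / n ≤ n / 16 := by
    rw [div_le_iff₀ hn0]
    have h7' : 16 * 16 ≤ n * n := mul_le_mul hn16 hn16 (by norm_num) hn0.le
    have h8' : n / 16 * n = n * n / 16 := by ring
    linarith
  have hcvx := h6 α S raw n (n - κ + lam0) hn0 (by linarith) (by linarith) hsum (by
      intro z hz
      rw [hrawn]
      have h7 := hcb z hz
      linarith)
  set Θ := (κ : ℝ) * n - (κ : ℝ) ^ 2 + (1 + ε / 2) * lam * κ - lam ^ 2 with hΘ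
  have hll : lam ^ 2 ≤ lam * κ := by
    have h7' : ε * κ ≤ κ := mul_le_of_le_one_left hκ0 hε1
    have h7 : lam ≤ κ := by linarith
    have h8' := mul_le_mul_of_nonneg_left h7 hlam0.le
    have h9' : lam ^ 2 = lam * lam := by ring
    linarith
  have hκκ : (κ : ℝ) ^ 2 ≤ κ * n / 16 := by
    have h8' := mul_le_mul_of_nonneg_left hκn hκ0
    have h9' : (κ : ℝ) ^ 2 = κ * κ := by ring
    linarith
  have hΘ0 : 0 ≤ Θ := by
    have h7 : 0 ≤ ε / 2 * lam * κ := by positivity
    have h8 : 0 ≤ (κ : ℝ) * n := by positivity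
    rw [hΘ]
    have h9' : (1 + ε / 2) * lam * κ = lam * κ + ε / 2 * lam * κ := by ring
    linarith
  have hΘ5 : Θ / (n / 4) ≤ 5 * κ := by
    rw [div_le_iff₀ (by positivity)]
    have h7 : lam * κ ≤ n / 16 * κ := mul_le_mul_of_nonneg_right hln hκ0
    have h8 : 0 ≤ (κ : ℝ) ^ 2 := by positivity
    have h9 : 0 ≤ lam ^ 2 := by positivity
    have h10 : 0 ≤ κ * n := by positivity
    have h11 : (1 + ε / 2) * (lam * κ) ≤ 2 * (lam * κ) :=
      mul_le_mul_of_nonneg_right (by linarith) (by positivity)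
    rw [hΘ]
    have h12' : (1 + ε / 2) * lam * κ = (1 + ε / 2) * (lam * κ) := by ring
    have h13' : n / 16 * κ = κ * n / 16 := by ring
    have h14' : 5 * (κ : ℝ) * (n / 4) = 5 / 4 * (κ * n) := by ring
    linarith
  set P : α → ℝ := fun z => max (raw z) (n / 4) with hP
  have hwl := hWF S (fun z => (n / 4)⁻¹ * P z) u (Θ / (n / 4))
    (by
      intro z hz
      have h7 : n / 4 ≤ P z := le_max_right _ _
      have h8 : P z ≤ 9 * (n / 4) := by
        refine max_le ?_ (by linarith)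
        rw [hrawn]
        have : (0 : ℝ) ≤ b.count z := Nat.cast_nonneg _
        linarith
      rw [inv_mul_eq_div]
      constructor
      · rw [le_div_iff₀ (by positivity)]
        linarith
      · rw [div_le_iff₀ (by positivity)]
        linarith)
    (div_nonneg hΘ0 (by positivity)) (by rw [← hn]; exact hnX)
    (by
      rw [← hn]
      have h7 : A * H * (Θ / (n / 4)) ≤ A * H * (5 * κ) :=
        mul_le_mul_of_nonneg_left hΘ5 (by positivity)
      linarith)
    (by
      intro L hL hLu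
      rw [cost_smul, inv_mul_eq_div]
      refine div_le_div_of_nonneg_right ?_ (by positivity)
      have h7 := h5 α S u b C ε lam κ L hC.le hε hε1 hIH hub htu htotr (by rw [← hn]; exact hlam)
        (by rw [← hn]; exact hκ) (by rw [← hn]; exact hl) hL hLu
      have h8 : cost raw L ≤ cost P L :=
        Pool.Agent.H46.FT.STEP.cost_mono (fun z => le_max_left _ _) L
      rw [← hn] at h7
      rw [← hn] at hraw
      rw [← hraw] at h7
      exact h7.trans h8)
  rw [← hn, htur] at hwl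
  have h7 : Θ / (n / 4) * ∑ z ∈ S, 1 / ((n / 4)⁻¹ * P z) = Θ * ∑ z ∈ S, 1 / P z := by
    rw [Finset.mul_sum, Finset.mul_sum]
    refine Finset.sum_congr rfl fun z hz => ?_
    have h8 : 0 < P z := lt_of_lt_of_le (by positivity) (le_max_right _ _)
    field_simp
  rw [h7] at hwl
  have h8 : Θ * (n / (n - κ + lam0)) ≤ Θ * ∑ z ∈ S, 1 / P z := by
    rw [← hn] at hcvx
    exact mul_le_mul_of_nonneg_left hcvx hΘ0
  have h9 : e * (Θ / (n / 4)) ≤ e * (5 * κ) := mul_le_mul_of_nonneg_left hΘ5 he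
  exact ste_arith n κ lam lam0 s e ε Θ (by linarith) hκpos hlam0.le hs he hε hε1 hl hκ hl1 hl2 h4l
    h48 h10 hΘ (by linarith)

end Pool.Agent.H53.SS
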