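import Pool.Agent.H53.SS.Targets

/-! WFI: the iteration. -/

set_option autoImplicit false

namespace Pool.Agent.H53.SS

open Pool.Agent.H52.FT

theorem wf_mono {α : Type} [DecidableEq α] {A H s e e' X : ℝ} (h : WF α A H s e X)
    (he : e ≤ e') : WF α A H s e' X := by
  intro S p u Θ hp hΘ hS hA hL
  have h1 := h S p u Θ hp hΘ hS hA hL
  have h2 : e * Θ ≤ e' * Θ := mul_le_mul_of_nonneg_right he hΘ
  linarith

theorem pf_WFI (h : T_WFS) : T_WFI := by
  intro α _ A H s N i hA hH hs hWG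
  induction i with
  | zero =>
    intro _ S p u Θ hp hΘ hS _ _
    have h1 : ∑ z ∈ S, 1 / p z ≤ S.card := by
      calc ∑ z ∈ S, 1 / p z ≤ ∑ _z ∈ S, (1 : ℝ) := Finset.sum_le_sum fun z hz => by
            rw [div_le_one (by linarith [(hp z hz).1])]
            exact (hp z hz).1
        _ = S.card := by simp
    rw [pow_zero] at hS
    have h2 : Θ * ∑ z ∈ S, 1 / p z ≤ Θ * 1 := mul_le_mul_of_nonneg_left (h1.trans hS) hΘ
    have h3 : 1 ≤ 100 ^ 0 * ((s + 1) * A * H) := by
      have h4 : 1 ≤ (s + 1) * A := by nlinarith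
      have h5 : 1 ≤ (s + 1) * A * H := by nlinarith
      simpa using h5
    have h4 : Θ * 1 ≤ 100 ^ 0 * ((s + 1) * A * H) * Θ := by nlinarith
    have h5 : (0 : ℝ) ≤ tot S u := Nat.cast_nonneg _
    have h6 : 0 ≤ (s + 1) * (S.card : ℝ) := by positivity
    linarith
  | succ i ih =>
    intro hN
    have hAi : (1 : ℝ) ≤ A ^ i := one_le_pow₀ hA
    have h39 : (1 : ℝ) ≤ 39 ^ i := one_le_pow₀ (by norm_num)
    have h100 : (39 : ℝ) ^ i ≤ 100 ^ i := pow_le_pow_left₀ (by norm_num) (by norm_num) i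
    have hle : A ^ i ≤ A ^ (i + 1) := pow_le_pow_right₀ hA (by omega)
    have h0 : 0 ≤ (s + 1) * A * H := by positivity
    have h1 := h α (39 ^ i * A) H s (100 ^ i * ((s + 1) * A * H)) (A ^ i) (A ^ (i + 1)) N
      (by nlinarith) hH hs (by positivity)
      (by
        rw [pow_succ]
        have h2 : 1 * (A ^ i * A) ≤ (39 * 39 ^ i) * (A ^ i * A) :=
          mul_le_mul_of_nonneg_right (by linarith) (by positivity)
        linarith)
      hN hWG (ih (hle.trans hN))
    have h2 : 39 * (39 ^ i * A) = 39 ^ (i + 1) * A := by ring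
    rw [h2] at h1
    refine wf_mono h1 ?_
    have h3 : 9 * (s + 1) * (39 ^ i * A) * H = 9 * 39 ^ i * ((s + 1) * A * H) := by ring
    rw [h3, pow_succ]
    have h4 : 39 ^ i * ((s + 1) * A * H) ≤ 100 ^ i * ((s + 1) * A * H) :=
      mul_le_mul_of_nonneg_right h100 h0
    have h5 : 0 ≤ 100 ^ i * ((s + 1) * A * H) := by positivity
    nlinarith

end Pool.Agent.H53.SS
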