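import Pool.Agent.H53.SS.Targets
import Pool.Agent.H56.FT.MIN
import Pool.Agent.H97.FT.GC

/-! WFS: the induction step of the weighted bound. -/

set_option autoImplicit false

namespace Pool.Agent.H53.SS

open Pool.Agent.H52.FT

variable {α : Type} [DecidableEq α]

/-- the light letters are few -/
theorem light_card {H s N : ℝ} (hWG : WG 1 9 H s N) (hH : 1 ≤ H) (hs : 0 ≤ s) {S : Finset α}
    {p : α → ℝ} {u : List α} {Θ : ℝ} (hΘ : 0 < Θ) (hΘN : Θ ≤ N)
    (hp : ∀ z ∈ S, 1 ≤ p z ∧ p z ≤ 9)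
    (hL : ∀ L : List α, Wd S L → ¬ L.Sublist u → Θ ≤ cost p L) :
    ((S.filter (fun z => p z * ((u.count z : ℝ) + 1) < Θ - s)).card : ℝ) ≤ H * Θ := by
  by_contra hcon
  push Not at hcon
  set Y := S.filter (fun z => p z * ((u.count z : ℝ) + 1) < Θ - s) with hY
  have hYpos : (0 : ℝ) < Y.card := lt_of_le_of_lt (by positivity) hcon
  have hYne : Y.Nonempty := by
    rw [← Finset.card_pos]
    exact_mod_cast hYpos
  obtain ⟨z1, hz1, hmax⟩ := Finset.exists_max_image Y
    (fun z => p z * ((u.count z : ℝ) + 1)) hYne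
  set θ := p z1 * ((u.count z1 : ℝ) + 1) with hθ
  obtain ⟨hz1S, hz1l⟩ := Finset.mem_filter.1 hz1
  have hcnt : (0 : ℝ) ≤ u.count z1 := Nat.cast_nonneg _
  have hθ1 : 1 ≤ θ := by
    have := (hp z1 hz1S).1
    nlinarith
  obtain ⟨L, h1, h2, h3⟩ := hWG α Y p u θ (fun z hz => hp z (Finset.mem_filter.1 hz).1) hθ1
    (by linarith) (by nlinarith) hmax
  have h4 := hL L ⟨h1.1, fun z hz => (Finset.mem_filter.1 (h1.2 z hz)).1⟩ h2
  linarith

/-- the sum over the heavy letters -/
theorem heavy_sum {H s N : ℝ} (hWG : WG 1 9 H s N) (hH : 1 ≤ H) (hs : 0 ≤ s) {S : Finset α}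
    {p : α → ℝ} {u : List α} {Θ G : ℝ} (hΘ : 0 < Θ) (hG : 0 ≤ G) (hΘN : Θ + G ≤ N)
    (hp : ∀ z ∈ S, 1 ≤ p z ∧ p z ≤ 9)
    (hheavy : ∀ z ∈ S, Θ - s ≤ p z * ((u.count z : ℝ) + 1))
    (hL : ∀ L : List α, Wd S L → ¬ L.Sublist u → Θ + G ≤ cost p L) :
    Θ * ∑ z ∈ S, 1 / p z + G / 9 * ((S.card : ℝ) - H * (Θ + G)) ≤
      tot S u + (s + 1) * S.card := by
  have hY := light_card hWG hH hs (by linarith : 0 < Θ + G) hΘN hp hL
  set Y := S.filter (fun z => p z * ((u.count z : ℝ) + 1) < Θ + G - s) with hYd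
  have h1 : ∀ z ∈ S, Θ * (1 / p z) + (if z ∈ Y then 0 else G / 9) ≤
      (u.count z : ℝ) + (s + 1) := by
    intro z hz
    obtain ⟨hp1, hp9⟩ := hp z hz
    have hp0 : 0 < p z := by linarith
    have hinv : 1 / p z ≤ 1 := by rw [div_le_one hp0]; exact hp1
    have hinv0 : 0 ≤ 1 / p z := by positivity
    by_cases hzY : z ∈ Y
    · rw [if_pos hzY]
      have h2 := hheavy z hz
      have h3 : Θ * (1 / p z) - s ≤ (u.count z : ℝ) + 1 := by
        have h4 : (Θ - s) * (1 / p z) ≤ (u.count z : ℝ) + 1 := by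
          rw [mul_one_div, div_le_iff₀ hp0]
          linarith
        nlinarith
      linarith
    · rw [if_neg hzY]
      have h2 : Θ + G - s ≤ p z * ((u.count z : ℝ) + 1) := by
        by_contra h0
        push Not at h0
        exact hzY (Finset.mem_filter.2 ⟨hz, h0⟩)
      have h4 : (Θ + G - s) * (1 / p z) ≤ (u.count z : ℝ) + 1 := by
        rw [mul_one_div, div_le_iff₀ hp0]
        linarith
      have h5 : G / 9 ≤ G * (1 / p z) := by
        rw [div_eq_mul_one_div]
        refine mul_le_mul_of_nonneg_left ?_ hG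
        exact one_div_le_one_div_of_le hp0 hp9
      nlinarith
  have h2 := Finset.sum_le_sum h1
  rw [Finset.sum_add_distrib, Finset.sum_add_distrib, ← Finset.mul_sum, Finset.sum_const,
    nsmul_eq_mul] at h2
  have h3 : ∑ z ∈ S, (if z ∈ Y then (0 : ℝ) else G / 9) = (S.card - Y.card : ℝ) * (G / 9) := by
    rw [← Finset.sum_filter_add_sum_filter_not S (fun z => z ∈ Y)]
    have e1 : ∑ z ∈ S.filter (fun z => z ∈ Y), (if z ∈ Y then (0 : ℝ) else G / 9) = 0 := by
      refine Finset.sum_eq_zero fun z hz => ?_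
      rw [if_pos (Finset.mem_filter.1 hz).2]
    have e2 : ∑ z ∈ S.filter (fun z => ¬ z ∈ Y), (if z ∈ Y then (0 : ℝ) else G / 9) =
        ((S.filter (fun z => ¬ z ∈ Y)).card : ℝ) * (G / 9) := by
      rw [Finset.sum_congr rfl (fun z hz => if_neg (Finset.mem_filter.1 hz).2), Finset.sum_const,
        nsmul_eq_mul]
    have e3 : S.filter (fun z => z ∈ Y) = Y := by
      ext z
      rw [Finset.mem_filter]
      exact ⟨fun h => h.2, fun h => ⟨(Finset.mem_filter.1 h).1, h⟩⟩
    have e4 : (S.filter (fun z => z ∈ Y)).card + (S.filter (fun z => ¬ z ∈ Y)).card = S.card :=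
      Finset.card_filter_add_card_filter_not _
    rw [e3] at e4
    have e5 : ((S.filter (fun z => ¬ z ∈ Y)).card : ℝ) = S.card - Y.card := by
      rw [← e4]
      push_cast
      ring
    rw [e1, e2, e5]
    ring
  rw [h3] at h2
  have h4 : (tot S u : ℝ) = ∑ z ∈ S, (u.count z : ℝ) := by
    unfold tot
    push_cast
    rfl
  rw [h4]
  have h5 : (G / 9) * ((Y.card : ℝ)) ≤ G / 9 * (H * (Θ + G)) :=
    mul_le_mul_of_nonneg_left hY (by positivity)
  nlinarith

theorem sum_map_le_sum_map {β : Type} (Q : List β) (f g : β → ℝ) (h : ∀ q ∈ Q, f q ≤ g q) :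
    (Q.map f).sum ≤ (Q.map g).sum := List.sum_le_sum h

theorem sum_map_affine {β : Type} (Q : List β) (f : β → ℝ) (G c : ℝ) :
    (Q.map (fun q => (f q - G) * c)).sum = ((Q.map f).sum - Q.length * G) * c := by
  induction Q with
  | nil => simp
  | cons a Q ih =>
    simp only [List.map_cons, List.sum_cons, List.length_cons, ih]
    push_cast
    ring

theorem sum_map_bound {β : Type} (Q : List β) (t f : β → ℝ) (a e : ℝ) :
    (Q.map (fun q => t q + a + e * f q)).sum =
      (Q.map t).sum + Q.length * a + e * (Q.map f).sum := by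
  induction Q with
  | nil => simp
  | cons b Q ih =>
    simp only [List.map_cons, List.sum_cons, List.length_cons, ih]
    push_cast
    ring

omit [DecidableEq α] in
theorem cost_nonneg {p : α → ℝ} {L : List α} (h : ∀ z ∈ L, 0 ≤ p z) : 0 ≤ cost p L :=
  List.sum_nonneg (by
    intro x hx
    obtain ⟨z, hz, rfl⟩ := List.mem_map.1 hx
    exact h z hz)

omit [DecidableEq α] in
theorem cost_flatten (p : α → ℝ) (Ls : List (List α)) :
    cost p Ls.flatten = (Ls.map (cost p)).sum := by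
  induction Ls with
  | nil => simp [cost]
  | cons L Ls ih => rw [List.flatten_cons, cost_append, ih]; simp

theorem wd_replace {S Y : Finset α} {L₁ M L₂ N : List α} (hYS : Y ⊆ S)
    (hL : Wd (S \ Y) (L₁ ++ M ++ L₂)) (hN : Wd Y N) : Wd S (L₁ ++ N ++ L₂) := by
  obtain ⟨h1, h2⟩ := hL
  rw [List.append_assoc, List.nodup_append] at h1
  have h3 := h1.2.1
  rw [List.nodup_append] at h3
  refine ⟨?_, ?_⟩
  · rw [List.append_assoc, List.nodup_append]
    refine ⟨h1.1, ?_, ?_⟩
    · rw [List.nodup_append]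
      refine ⟨hN.1, h3.2.1, ?_⟩
      intro a ha b hb hab
      subst hab
      have h4 := h2 a (by simp [hb])
      rw [Finset.mem_sdiff] at h4
      exact h4.2 (hN.2 a ha)
    · intro a ha b hb hab
      subst hab
      rcases List.mem_append.1 hb with hb | hb
      · have h4 := h2 a (by simp [ha])
        rw [Finset.mem_sdiff] at h4
        exact h4.2 (hN.2 a hb)
      · exact h1.2.2 a ha a (List.mem_append_right _ hb) rfl
  · intro z hz
    rcases List.mem_append.1 hz with hz | hz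
    · rcases List.mem_append.1 hz with hz | hz
      · exact (Finset.mem_sdiff.1 (h2 z (by simp [hz]))).1
      · exact hYS (hN.2 z hz)
    · exact (Finset.mem_sdiff.1 (h2 z (by simp [hz]))).1

theorem pf_WFS : T_WFS := by
  intro α _ A H s e X X' N hA hH hs he hXX hXN hWG hWF S p u Θ hp hΘ0 hSX hAS hL
  have hAH : 1 ≤ A * H := by nlinarith
  have hinv : ∀ z ∈ S, 0 ≤ 1 / p z ∧ 1 / p z ≤ 1 := by
    intro z hz
    have h1 := (hp z hz).1
    exact ⟨by positivity, by rw [div_le_one (by linarith)]; exact h1⟩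
  have hsumle : ∀ T ⊆ S, ∑ z ∈ T, 1 / p z ≤ T.card := by
    intro T hT
    calc ∑ z ∈ T, 1 / p z ≤ ∑ _z ∈ T, (1 : ℝ) := Finset.sum_le_sum fun z hz => (hinv z (hT hz)).2
      _ = T.card := by simp
  have hsum0 : ∀ T ⊆ S, 0 ≤ ∑ z ∈ T, 1 / p z := fun T hT =>
    Finset.sum_nonneg fun z hz => (hinv z (hT hz)).1
  have htot0 : ∀ (T : Finset α) (v : List α), (0 : ℝ) ≤ tot T v := fun T v => Nat.cast_nonneg _
  rcases hΘ0.eq_or_lt with h0 | hΘ
  · rw [← h0]
    have h1 := htot0 S u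
    have h2 : (0 : ℝ) ≤ (s + 1) * S.card := by positivity
    linarith
  -- the light letters
  have hcardN : 39 * (A * H * Θ) ≤ S.card := by linarith
  have hΘS : Θ ≤ A * H * Θ := by nlinarith
  have hHΘ : H * Θ ≤ A * H * Θ := by nlinarith [mul_pos (by linarith : 0 < H) hΘ]
  have hΘN : Θ ≤ N := by linarith
  have hYc := light_card hWG hH hs hΘ hΘN hp hL
  set Y := S.filter (fun z => p z * ((u.count z : ℝ) + 1) < Θ - s) with hY
  have hYS : Y ⊆ S := Finset.filter_subset _ _
  set S' := S \ Y with hS'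
  have hS'S : S' ⊆ S := Finset.sdiff_subset
  have hcard : (S'.card : ℝ) + Y.card = S.card := by
    rw [hS', Finset.card_sdiff_of_subset hYS]
    have := Finset.card_le_card hYS
    push_cast [Nat.cast_sub this]
    ring
  have hp' : ∀ z ∈ S', 1 ≤ p z ∧ p z ≤ 9 := fun z hz => hp z (hS'S hz)
  have hheavy : ∀ z ∈ S', Θ - s ≤ p z * ((u.count z : ℝ) + 1) := by
    intro z hz
    obtain ⟨h1, h2⟩ := Finset.mem_sdiff.1 hz
    by_contra h3
    push Not at h3
    exact h2 (Finset.mem_filter.2 ⟨h1, h3⟩)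
  have htot : (tot S u : ℝ) = tot S' u + tot Y u := by exact_mod_cast tot_sdiff hYS u
  have hsplit : ∑ z ∈ S, 1 / p z = ∑ z ∈ S', 1 / p z + ∑ z ∈ Y, 1 / p z :=
    (Finset.sum_sdiff hYS).symm
  have hL' : ∀ L : List α, Wd S' L → ¬ L.Sublist u → Θ ≤ cost p L := fun L h1 h2 =>
    hL L ⟨h1.1, fun z hz => hS'S (h1.2 z hz)⟩ h2
  have hYle := hsumle Y hYS
  have hY0 := hsum0 Y hYS
  have hYcard0 : (0 : ℝ) ≤ Y.card := Nat.cast_nonneg _
  have hS'0 : (0 : ℝ) ≤ S'.card := Nat.cast_nonneg _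
  have hΘSS : 0 ≤ (s + 1) * A * H * Θ := by positivity
  have heΘ : 0 ≤ e * Θ := by positivity
  by_cases hcase : ∀ L : List α, Wd S' L → ¬ L.Sublist u → Θ + Θ ≤ cost p L
  · -- no cheap non-subword over `S'`
    have h1 := heavy_sum hWG hH hs hΘ hΘ0 (by linarith) hp' hheavy hcase
    have h2 : Θ * ∑ z ∈ Y, 1 / p z ≤ Θ * Y.card := mul_le_mul_of_nonneg_left hYle hΘ0
    have h3 : Θ * (Y.card : ℝ) ≤ Θ / 9 * ((S'.card : ℝ) - H * (Θ + Θ)) := by
      have h4 : 9 * (Y.card : ℝ) ≤ (S'.card : ℝ) - H * (Θ + Θ) := by linarith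
      nlinarith
    have h4 := htot0 Y u
    have h5 : (s + 1) * (S'.card : ℝ) ≤ (s + 1) * S.card :=
      mul_le_mul_of_nonneg_left (by linarith) (by linarith)
    rw [hsplit, htot, mul_add]
    nlinarith
  push Not at hcase
  obtain ⟨L0, hL0, hL0u, hL0c⟩ := hcase
  obtain ⟨L, hLw, hLu, hLmin⟩ := Pool.Agent.H56.FT.MIN.mn α S' p u ⟨L0, hL0, hL0u⟩
  set G := cost p L - Θ with hG
  have hG0 : 0 ≤ G := by
    have := hL' L hLw hLu
    linarith
  have hGΘ : G < Θ := by
    have := hLmin L0 hL0 hL0u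
    linarith
  have hcostL : cost p L = Θ + G := by rw [hG]; ring
  have hgain := heavy_sum hWG hH hs hΘ hG0 (by linarith) hp' hheavy
    (fun L' h1 h2 => by rw [← hcostL]; exact hLmin L' h1 h2)
  by_cases hsmall : (Y.card : ℝ) < 9 * (A * H)
  · have h2 : Θ * ∑ z ∈ Y, 1 / p z ≤ Θ * (9 * (A * H)) :=
      mul_le_mul_of_nonneg_left (by linarith) hΘ0
    have h3 : 0 ≤ G / 9 * ((S'.card : ℝ) - H * (Θ + G)) := by
      refine mul_nonneg (by positivity) ?_
      have : H * (Θ + G) ≤ H * (Θ + Θ) := mul_le_mul_of_nonneg_left (by linarith) (by linarith)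
      linarith
    have h4 := htot0 Y u
    have h5 : (s + 1) * (S'.card : ℝ) ≤ (s + 1) * S.card :=
      mul_le_mul_of_nonneg_left (by linarith) (by linarith)
    have h6 : 0 ≤ s * (A * H * Θ) := by positivity
    rw [hsplit, htot, mul_add]
    nlinarith
  push Not at hsmall
  -- the chunks
  set c := (Y.card : ℝ) / (A * H) with hc
  have hAH0 : 0 < A * H := by linarith
  have hc9 : 9 ≤ c := by
    rw [hc, le_div_iff₀ hAH0]
    exact hsmall
  have hcY : A * H * c = Y.card := by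
    rw [hc, mul_comm, div_mul_cancel₀ _ hAH0.ne']
  obtain ⟨Ls, hLs1, hLs2, hLs3⟩ := Pool.Agent.H97.FT.GC.gc α p L c (by linarith)
    (ne_nil_of_not_sublist hLu) (by
      intro z hz
      have h1 := hp' z (hLw.2 z hz)
      constructor <;> linarith)
  obtain ⟨Q, hQ1, hQ2, hQ3, hQ4⟩ := multi_split Ls u (fun M hM => (hLs2 M hM).1)
    (by rw [hLs1]; exact hLw.1) (by rw [hLs1]; exact hLu)
  have hmono : (Y.card : ℝ) ≤ X := by
    have h1 : 39 * A * (Y.card : ℝ) ≤ 39 * A * X := by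
      calc 39 * A * (Y.card : ℝ) ≤ 39 * A * (H * Θ) :=
            mul_le_mul_of_nonneg_left hYc (by positivity)
        _ ≤ S.card := by linarith
        _ ≤ 39 * A * X := hSX.trans hXX
    exact le_of_mul_le_mul_left h1 (by positivity)
  have hchunk : ∀ q ∈ Q, (cost p q.1 - G) * ∑ z ∈ Y, 1 / p z ≤
      (tot Y q.2 : ℝ) + (s + 1) * Y.card + e * cost p q.1 := by
    intro q hq
    have hq1 : q.1 ∈ Ls := by rw [← hQ1]; exact List.mem_map_of_mem hq
    have hlen := (hLs2 q.1 hq1).2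
    obtain ⟨L₁, L₂, h3, h4⟩ := hQ4 q hq
    have hLeq : L = L₁ ++ q.1 ++ L₂ := by rw [← hLs1]; exact h3
    have hq0 : 0 ≤ cost p q.1 := by
      refine cost_nonneg fun z hz => ?_
      have h5 := hp' z (hLw.2 z (by rw [hLeq]; simp [hz]))
      linarith
    by_cases hle : cost p q.1 ≤ G
    · have h5 : (cost p q.1 - G) * ∑ z ∈ Y, 1 / p z ≤ 0 :=
        mul_nonpos_of_nonpos_of_nonneg (by linarith) hY0
      have h6 := htot0 Y q.2
      have h7 : 0 ≤ (s + 1) * (Y.card : ℝ) := mul_nonneg (by linarith) hYcard0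
      have h8 : 0 ≤ e * cost p q.1 := mul_nonneg he hq0
      linarith
    push Not at hle
    have h5 := hWF Y p q.2 (cost p q.1 - G) (fun z hz => hp z (hYS hz)) (by linarith) hmono
      (by
        calc A * H * (cost p q.1 - G) ≤ A * H * c :=
              mul_le_mul_of_nonneg_left (by linarith) (by linarith)
          _ = Y.card := hcY)
      (by
        intro N hN hNu
        have h6 := h4 N hNu
        have h7 : Wd S (L₁ ++ N ++ L₂) := wd_replace hYS (by rw [← hLeq]; exact hLw) hN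
        have h8 := hL _ h7 h6
        have h9 : cost p L = cost p L₁ + cost p q.1 + cost p L₂ := by
          rw [hLeq, cost_append, cost_append]
        rw [cost_append, cost_append] at h8
        linarith)
    have h6 : e * (cost p q.1 - G) ≤ e * cost p q.1 :=
      mul_le_mul_of_nonneg_left (by linarith) he
    linarith
  have hsumQ := sum_map_le_sum_map Q _ _ hchunk
  rw [sum_map_affine, sum_map_bound] at hsumQ
  have hQcost : (Q.map (fun q => cost p q.1)).sum = Θ + G := by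
    rw [← hcostL, ← hLs1, cost_flatten, ← hQ1, List.map_map]
    rfl
  have hQtot : (Q.map (fun q => (tot Y q.2 : ℝ))).sum = tot Y u := by
    rw [← hQ2, tot_flatten, List.map_map]
    push_cast
    rw [List.map_map]
    rfl
  rw [hQcost, hQtot] at hsumQ
  set b : ℝ := (Q.length : ℝ) with hb
  have hbl : (b - 1) * c ≤ 2 * (Θ + G) := by
    have h1 : (Ls.length : ℝ) = b := by
      rw [hb, ← hQ1, List.length_map]
    rw [← h1, ← hcostL]
    exact hLs3
  have hb1 : (b - 1) * (Y.card : ℝ) ≤ 4 * (A * H * Θ) := by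
    rw [← hcY]
    have h1 : (b - 1) * (A * H * c) = A * H * ((b - 1) * c) := by ring
    rw [h1]
    have h2 : A * H * ((b - 1) * c) ≤ A * H * (2 * (Θ + G)) :=
      mul_le_mul_of_nonneg_left hbl (by linarith)
    have h3 : A * H * (2 * (Θ + G)) ≤ A * H * (4 * Θ) :=
      mul_le_mul_of_nonneg_left (by linarith) (by linarith)
    linarith
  have hbpos : 1 ≤ b := by
    have hne : Ls ≠ [] := by
      intro h0
      rw [h0] at hLs1
      exact ne_nil_of_not_sublist hLu (by rw [← hLs1]; rfl)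
    have h1 : (Ls.length : ℝ) = b := by
      rw [hb, ← hQ1, List.length_map]
    rw [← h1]
    exact_mod_cast List.length_pos_iff.2 hne
  -- the loss
  have hloss : (b - 1) * G * ∑ z ∈ Y, 1 / p z ≤ 4 * (A * H * Θ) * G := by
    calc (b - 1) * G * ∑ z ∈ Y, 1 / p z ≤ (b - 1) * G * Y.card :=
          mul_le_mul_of_nonneg_left hYle (mul_nonneg (by linarith) hG0)
      _ = (b - 1) * Y.card * G := by ring
      _ ≤ 4 * (A * H * Θ) * G := mul_le_mul_of_nonneg_right hb1 hG0
  have hb2 : b * ((s + 1) * Y.card) ≤ (s + 1) * Y.card + (s + 1) * (4 * (A * H * Θ)) := by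
    have h1 : b * ((s + 1) * Y.card) = (s + 1) * Y.card + (s + 1) * ((b - 1) * Y.card) := by ring
    rw [h1]
    have h2 := mul_le_mul_of_nonneg_left hb1 (by linarith : 0 ≤ s + 1)
    linarith
  have hgain2 : 4 * (A * H * Θ) * G ≤ G / 9 * ((S'.card : ℝ) - H * (Θ + G)) := by
    have h1 : 36 * (A * H * Θ) ≤ (S'.card : ℝ) - H * (Θ + G) := by
      have : H * (Θ + G) ≤ H * (Θ + Θ) := mul_le_mul_of_nonneg_left (by linarith) (by linarith)
      linarith
    nlinarith
  have heG : e * (Θ + G) ≤ 2 * (e * Θ) := by nlinarith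
  have hsc : (s + 1) * (S'.card : ℝ) + (s + 1) * Y.card = (s + 1) * S.card := by
    rw [← hcard]; ring
  have hexp : (Θ + G - b * G) * ∑ z ∈ Y, 1 / p z =
      Θ * ∑ z ∈ Y, 1 / p z - (b - 1) * G * ∑ z ∈ Y, 1 / p z := by ring
  rw [hexp] at hsumQ
  rw [hsplit, htot, mul_add]
  have hfin : (2 * e + 9 * (s + 1) * A * H) * Θ =
      2 * (e * Θ) + 9 * ((s + 1) * (A * H * Θ)) := by ring
  rw [hfin]
  have h10 : 0 ≤ (s + 1) * (A * H * Θ) := by positivity
  linarith

end Pool.Agent.H53.SS
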