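import Pool.Agent.H53.SS.FIE
import Pool.Agent.H53.SS.WFI
import Pool.Agent.H53.SS.WFS
import Pool.Agent.H53.SS.NUE
import Pool.Agent.H53.SS.STE
import Pool.Agent.H53.SS.CVX
import Pool.Agent.H53.SS.CNE
import Pool.Agent.H53.SS.LOE

/-! The reduction of the lower bound to the weighted greedy lemma. -/

set_option autoImplicit false

namespace Pool.Agent.H53.SS

theorem fie (h : T_WGT) : T_FIE :=
  pf_FIE (pf_WG9 h) (pf_WFI pf_WFS) (pf_STE Pool.Agent.H33.FT.PRE.pre pf_CNE pf_LOE pf_CVX) pf_NUE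

end Pool.Agent.H53.SS
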