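import Pool.Agent.H53.SS.Targets
import Pool.Agent.H54.FT.All

/-! FIE: the final lower bound. -/

set_option autoImplicit false

namespace Pool.Agent.H53.SS

open Pool.Agent.H52.FT

theorem pf_FIE (h1 : T_WG9) (h2 : T_WFI) (h3 : T_STE) (h4 : T_NUE) : T_FIE := by
  intro ε₀ hε₀
  set ε : ℝ := min ε₀ (1 / 4) with hεd
  have hε : 0 < ε := lt_min hε₀ (by norm_num)
  have hε4 : ε ≤ 1 / 4 := min_le_right _ _
  obtain ⟨C₁, hC₁, hWG⟩ := h1 (ε / 8) (by positivity)
  obtain ⟨C, hC, hpar⟩ := h4 ε C₁ hε hε4 hC₁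
  refine ⟨C, by linarith, ?_⟩
  have key : ∀ (α : Type) [DecidableEq α] (S : Finset α) (w : List α), Uni S w →
      (S.card : ℝ) ^ 2 - C * (S.card : ℝ) ^ (1 + ε) ≤ tot S w := by
    intro α _ S
    induction S using Finset.strongInduction with
    | H S ih =>
      intro w hw
      rcases Nat.eq_zero_or_pos S.card with h0 | hpos
      · rw [h0]
        have h5 : (0 : ℝ) ≤ tot S w := Nat.cast_nonneg _
        rw [Nat.cast_zero, Real.zero_rpow (by linarith)]
        linarith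
      have hn : (1 : ℝ) ≤ (S.card : ℝ) := by exact_mod_cast hpos
      rcases hpar (S.card : ℝ) hn with h5 | ⟨A, H, s, e, lam, i, κ, hH, hs, hlam, hA, hAi, he,
        hlam1, hl, hκ, hA5, h4l, h100, h20⟩
      · have h6 := Pool.Agent.H54.FT.tr α S w hw
        have h7 : ((3 : ℝ) / 2) = (3 / 2 : ℝ) := rfl
        linarith
      · have hn8 : 1 ≤ (S.card : ℝ) ^ (ε / 8) := Real.one_le_rpow hn (by positivity)
        have hH1 : 1 ≤ H := by rw [hH]; nlinarith
        have hs0 : 0 ≤ s := by rw [hs]; positivity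
        have hW : WG 1 9 H s (S.card : ℝ) := by
          rw [hH, hs]
          exact hWG _ hn
        have hWF := h2 α A H s (S.card : ℝ) i hA hH1 hs0 hW hAi.le
        have h39 : (1 : ℝ) ≤ 39 ^ i := one_le_pow₀ (by norm_num)
        exact h3 α (39 ^ i * A) H s e (A ^ i) C ε (S.card : ℝ) lam S κ w (by rw [he]; exact hWF)
          (by nlinarith) hH1 hs0 (by rw [he]; positivity) hε (by linarith) ih rfl hAi.ge hlam
          hlam1 hl hκ hA5 h4l h100 h20 hw
  intro α _ S w hS hw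
  have h5 := key α S w hw
  have hn : (1 : ℝ) ≤ (S.card : ℝ) := by exact_mod_cast hS
  have h6 : (S.card : ℝ) ^ (1 + ε) ≤ (S.card : ℝ) ^ (1 + ε₀) :=
    Real.rpow_le_rpow_of_exponent_le hn (by linarith [min_le_left ε₀ (1 / 4 : ℝ)])
  have h7 : C * (S.card : ℝ) ^ (1 + ε) ≤ C * (S.card : ℝ) ^ (1 + ε₀) :=
    mul_le_mul_of_nonneg_left h6 (by linarith)
  linarith

end Pool.Agent.H53.SS
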